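import Pool.Agent.Lib.MP_7903c7_al.AR.Main

set_option autoImplicit false

/-!
The Bass trace conjecture over arbitrary commutative rings.
-/

namespace Pool.Agent.Results.MP_7903c7_al.AllRings

open scoped Classical

/-- The value at the conjugacy class of `g` of the Hattori-Stallings rank of a square matrix over
the group ring: the sum, over the diagonal entries, of the coefficients at the conjugates of `g`. -/
noncomputable def classTrace {R G : Type} [CommRing R] [Group G] {n : ℕ}
    (A : Matrix (Fin n) (Fin n) (MonoidAlgebra R G)) (g : G) : R :=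
  ∑ i : Fin n, ∑ h ∈ (A i i).coeff.support with IsConj h g, (A i i).coeff h

lemma classTrace_eq {R G : Type} [CommRing R] [Group G] {n : ℕ}
    (A : Matrix (Fin n) (Fin n) (MonoidAlgebra R G)) (g : G) :
    classTrace A g = Pool.Agent.Lib.MP_7903c7_al.tau (fun h => IsConj h g) A :=
  Finset.sum_congr rfl fun _ _ => Finset.sum_filter _ _

/-- The commutative rings over which the trace vanishes at all elements of order `m`. -/
theorem result (R : Type) [CommRing R] (m : ℕ) :
    (∀ (G : Type) [Group G] (n : ℕ) (A : Matrix (Fin n) (Fin n) (MonoidAlgebra R G)) (g : G),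
      A * A = A → orderOf g = m → classTrace A g = 0) ↔
    ∀ e : R, e * e = e → (m : R) ∣ e → e = 0 := by
  refine ⟨fun H e he ⟨r, hr⟩ => ?_, fun H G _ n A g hA hg => ?_⟩
  · rcases Nat.eq_zero_or_pos m with rfl | hm
    · simpa using hr
    have : NeZero m := ⟨hm.ne'⟩
    let a : MonoidAlgebra R (Multiplicative (ZMod m)) := ∑ h, MonoidAlgebra.single h (r * e)
    have ha : a * a = a := by
      have h1 : ∀ u, MonoidAlgebra.single u (r * e) * a = (r * e) • a := fun u => by
        simp only [a, Finset.mul_sum, Finset.smul_sum, MonoidAlgebra.single_mul_single,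
          MonoidAlgebra.smul_single, smul_eq_mul]
        exact Fintype.sum_equiv (Equiv.mulLeft u) _ _ fun _ => rfl
      conv_lhs => enter [1]; simp only [a]
      rw [Finset.sum_mul, Finset.sum_congr rfl fun u _ => h1 u, Finset.sum_const, Finset.card_univ,
        Fintype.card_multiplicative, ZMod.card, ← Nat.cast_smul_eq_nsmul R, smul_smul, ← mul_assoc,
        ← hr, he]
      simp only [a, Finset.smul_sum, MonoidAlgebra.smul_single, smul_eq_mul]
      rw [mul_left_comm, he]
    have h2 := H (Multiplicative (ZMod m)) 1 (Matrix.of fun _ _ => a) (Multiplicative.ofAdd 1)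
      (by ext1 i j; simp [Matrix.mul_apply, ha])
      (by rw [orderOf_ofAdd_eq_addOrderOf, ZMod.addOrderOf_one])
    rw [classTrace_eq, Pool.Agent.Lib.MP_7903c7_al.tau_apply] at h2
    simp only [a, Matrix.of_apply, map_sum, Pool.Agent.Lib.MP_7903c7_al.tau0_single,
      isConj_iff_eq, Finset.sum_const, Finset.card_univ, Fintype.card_fin, one_smul] at h2
    rw [Finset.sum_eq_single (Multiplicative.ofAdd 1) (fun b _ hb => by rw [if_neg hb])
      (fun h => absurd (Finset.mem_univ _) h), if_pos rfl] at h2
    rw [← he]
    nth_rw 1 [hr]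
    rw [mul_assoc, h2, mul_zero]
  · rw [classTrace_eq]
    exact Pool.Agent.Lib.MP_7903c7_al.AR.main hA (hg ▸ H)

end Pool.Agent.Results.MP_7903c7_al.AllRings
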