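import Pool.Agent.Lib.MP_7903c7_al.TQ.Main

set_option autoImplicit false

/-!
The Hattori-Stallings rank over an arbitrary coefficient ring is torsion on every class of
infinite order.
-/

namespace Pool.Agent.Results.MP_7903c7_al.TorsionTrace

open scoped Classical

/-- The sum, over the diagonal entries, of the coefficients at the conjugates of `g`. -/
noncomputable def classTrace {B G : Type} [Ring B] [Group G] {n : ℕ}
    (A : Matrix (Fin n) (Fin n) (MonoidAlgebra B G)) (g : G) : B :=
  ∑ i : Fin n, ∑ h ∈ (A i i).coeff.support with IsConj h g, (A i i).coeff h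

/-- The additive subgroup generated by the commutators `a * b - b * a`. -/
def commutators (B : Type) [Ring B] : AddSubgroup B :=
  AddSubgroup.closure {z | ∃ a b : B, z = a * b - b * a}

theorem result (B : Type) [Ring B] (G : Type) [Group G] (n : ℕ)
    (A : Matrix (Fin n) (Fin n) (MonoidAlgebra B G)) (hA : A * A = A) (g : G)
    (hg : orderOf g = 0) : ∃ m : ℕ, 0 < m ∧ m • classTrace A g ∈ commutators B := by
  by_contra hcon
  push Not at hcon
  let π : B →+ B ⧸ commutators B := QuotientAddGroup.mk' _
  have hnat : ∀ m : ℕ, m • π (classTrace A g) = 0 → m = 0 := fun m hm => by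
    by_contra h0
    rw [← map_nsmul] at hm
    exact hcon m (Nat.pos_of_ne_zero h0) ((QuotientAddGroup.eq_zero_iff _).1 hm)
  have hinj : Function.Injective (zmultiplesHom (B ⧸ commutators B) (π (classTrace A g))) := by
    rw [injective_iff_map_eq_zero]
    intro z hz
    rw [zmultiplesHom_apply] at hz
    refine Int.natAbs_eq_zero.1 (hnat _ ?_)
    rcases Int.natAbs_eq z with h | h
    · rw [← natCast_zsmul, ← h, hz]
    · rw [← natCast_zsmul, ← neg_eq_zero, ← neg_zsmul, ← h, hz]
  obtain ⟨φ, hφ⟩ := (Module.Baer.of_divisible ℚ).extension_property_addMonoidHom _ hinj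
    (Int.castAddHom ℚ)
  have h1 : φ (π (classTrace A g)) = 1 := by
    have := DFunLike.congr_fun hφ 1
    simpa using this
  have h0 := Pool.Agent.Lib.MP_7903c7_al.TQ.core_mat (φ.comp π) (fun a b => by
    have : π (a * b) = π (b * a) := by
      rw [← sub_eq_zero, ← map_sub]
      exact (QuotientAddGroup.eq_zero_iff _).2 (AddSubgroup.subset_closure ⟨a, b, rfl⟩)
    rw [AddMonoidHom.comp_apply, AddMonoidHom.comp_apply, this]) hA hg
  exact one_ne_zero (h1.symm.trans h0)

end Pool.Agent.Results.MP_7903c7_al.TorsionTrace
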