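import Pool.Agent.Lib.MP_7903c7_al.NC.Mat

set_option autoImplicit false

/-!
The Bass trace conjecture with coefficients in an arbitrary ring with a trace.
-/

namespace Pool.Agent.Results.MP_7903c7_al.TracedRings

open scoped Classical

/-- The sum, over the diagonal entries, of the values of `T` on the coefficients at the
conjugates of `g`. -/
noncomputable def classTrace {B M G : Type} [Ring B] [AddCommGroup M] [Group G] {n : ℕ}
    (T : B →+ M) (A : Matrix (Fin n) (Fin n) (MonoidAlgebra B G)) (g : G) : M :=
  ∑ i : Fin n, ∑ h ∈ (A i i).coeff.support with IsConj h g, T ((A i i).coeff h)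

/-- A matrix that is idempotent modulo `p ^ j` has trace divisible by `p ^ j` on the class of
every element whose order is divisible by `p`. -/
theorem result (B : Type) [Ring B] (M : Type) [AddCommGroup M] (T : B →+ M)
    (hT : ∀ a b : B, T (a * b) = T (b * a)) (p : ℕ) (hp : p.Prime)
    (hM : ∀ m : M, p • m = 0 → m = 0) (G : Type) [Group G] (n j : ℕ)
    (A D : Matrix (Fin n) (Fin n) (MonoidAlgebra B G)) (hA : A * A - A = p ^ j • D) (g : G)
    (hg : p ∣ orderOf g) : ∃ m : M, classTrace T A g = p ^ j • m :=
  Pool.Agent.Lib.MP_7903c7_al.NC.main T hT hp hM hA hg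

end Pool.Agent.Results.MP_7903c7_al.TracedRings
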